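import Pool.Agent.W_MP_25fb88_lc.Main

/-!
# Ladner's theorem in the real Blum–Shub–Smale model

If `P_ℝ ≠ NP_ℝ` then there is a problem in `NP_ℝ ∖ P_ℝ` which is not `NP_ℝ`-complete.
The definitions (machines, `P_ℝ`, `NP_ℝ`, reductions, completeness) are in
`Pool/Agent/W_MP_25fb88_lc/Defs.lean`.
-/

namespace Pool.Agent.Results.MP_25fb88_lc.RealLadner

open Pool.Agent.W_MP_25fb88_lc

/-- **Ladner's theorem over the reals.** If `P_ℝ ≠ NP_ℝ`, there is a problem `L ∈ NP_ℝ ∖ P_ℝ`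
that is not `NP_ℝ`-complete. -/
theorem result (h : {L : Set RInf | InP L} ≠ {L : Set RInf | InNP L}) :
    ∃ L : Set RInf, InNP L ∧ ¬ InP L ∧ ¬ NPComplete L :=
  real_ladner h

end Pool.Agent.Results.MP_25fb88_lc.RealLadner
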